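import Pool.Agent.H77.RZ.Stmts

/-!
# NUN: norms of integral polynomials and units modulo `(P, f)`
-/

set_option autoImplicit false

namespace Pool.RZ

open Polynomial Matrix Pool.AVR Pool.AVS

namespace NUN

section General

variable {R : Type} [CommRing R] (a b c : R)

theorem cub_monic : (cub a b c).Monic := by
  unfold cub
  monicity!

theorem cub_natDegree [Nontrivial R] : (cub a b c).natDegree = 3 := by
  unfold cub
  compute_degree!

theorem mod_of [Nontrivial R] {p : R[X]} {u v w : R}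
    (h : cub a b c ∣ p - (C u * X ^ 2 + C v * X + C w)) :
    p %ₘ cub a b c = C u * X ^ 2 + C v * X + C w := by
  obtain ⟨d, hd⟩ := h
  refine (div_modByMonic_unique d _ (cub_monic a b c) ⟨?_, ?_⟩).2
  · linear_combination -hd
  · have h3 : (cub a b c).degree = 3 := by
      rw [degree_eq_natDegree (cub_monic a b c).ne_zero, cub_natDegree]
      rfl
    rw [h3]
    refine lt_of_le_of_lt (degree_quadratic_le) ?_
    norm_num

/-- The coefficient of `X²` in the remainder. -/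
noncomputable def tR (p : R[X]) : R := (p %ₘ cub a b c).coeff 2

theorem tR_of [Nontrivial R] {p : R[X]} {u v w : R}
    (h : cub a b c ∣ p - (C u * X ^ 2 + C v * X + C w)) : tR a b c p = u := by
  unfold tR
  rw [mod_of a b c h]
  simp

theorem exists_rep [Nontrivial R] (p : R[X]) :
    ∃ r0 r1 r2 : R, cub a b c ∣ p - (C r2 * X ^ 2 + C r1 * X + C r0) := by
  refine ⟨(p %ₘ cub a b c).coeff 0, (p %ₘ cub a b c).coeff 1, (p %ₘ cub a b c).coeff 2, ?_⟩
  have h1 : p %ₘ cub a b c = C ((p %ₘ cub a b c).coeff 2) * X ^ 2 +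
      C ((p %ₘ cub a b c).coeff 1) * X + C ((p %ₘ cub a b c).coeff 0) := by
    have h2 : (p %ₘ cub a b c).natDegree < 3 := by
      rw [← cub_natDegree a b c]
      refine natDegree_modByMonic_lt _ (cub_monic a b c) ?_
      intro h3
      have h4 := cub_natDegree a b c
      rw [h3, natDegree_one] at h4
      omega
    conv_lhs => rw [(p %ₘ cub a b c).as_sum_range_C_mul_X_pow' h2]
    rw [Finset.sum_range_succ, Finset.sum_range_succ, Finset.sum_range_one]
    simp only [pow_zero, mul_one, pow_one]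
    ring
  rw [← h1]
  exact ⟨p /ₘ cub a b c, by
    have := modByMonic_add_div p (cub a b c)
    linear_combination -this⟩

/-- The norm of `r0 + r1 X + r2 X²`. -/
def nu (r0 r1 r2 : R) : R :=
  r0 * ((r0 - b * r2) * (r0 - b * r2 - a * (r1 - a * r2)) -
      (-c * r2 - b * (r1 - a * r2)) * (r1 - a * r2)) -
    (-c * r2) * (r1 * (r0 - b * r2 - a * (r1 - a * r2)) -
      (-c * r2 - b * (r1 - a * r2)) * r2) +
    (-c * (r1 - a * r2)) * (r1 * (r1 - a * r2) - (r0 - b * r2) * r2)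

variable {a b c}

theorem tR0 [Nontrivial R] {p : R[X]} {r0 r1 r2 : R}
    (h : cub a b c ∣ p - (C r2 * X ^ 2 + C r1 * X + C r0)) : tR a b c p = r2 := tR_of a b c h

theorem stepX {p : R[X]} {r0 r1 r2 : R}
    (h : cub a b c ∣ p - (C r2 * X ^ 2 + C r1 * X + C r0)) :
    cub a b c ∣ X * p - (C (r1 - a * r2) * X ^ 2 + C (r0 - b * r2) * X + C (-c * r2)) := by
  obtain ⟨d, hd⟩ := h
  refine ⟨X * d + C r2, ?_⟩
  have h1 : p = cub a b c * d + (C r2 * X ^ 2 + C r1 * X + C r0) := by linear_combination hd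
  rw [h1]
  unfold cub
  simp only [map_sub, map_mul, map_neg]
  ring

/-- The Gram matrix over `R`. -/
noncomputable def G (a b c : R) (p : R[X]) : Matrix (Fin 3) (Fin 3) R :=
  Matrix.of fun i j => tR a b c (X ^ (i : ℕ) * X ^ (j : ℕ) * p)

theorem det_G [Nontrivial R] {p : R[X]} {r0 r1 r2 : R}
    (h : cub a b c ∣ p - (C r2 * X ^ 2 + C r1 * X + C r0)) :
    (G a b c p).det = -nu a b c r0 r1 r2 := by
  have h1 := stepX h
  have h2 := stepX h1
  have h3 := stepX h2
  have h4 := stepX h3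
  have t0 := tR0 h
  have t1 := tR0 h1
  have t2 := tR0 h2
  have t3 := tR0 h3
  have t4 := tR0 h4
  have e00 : G a b c p 0 0 = tR a b c p := by
    change tR a b c (X ^ 0 * X ^ 0 * p) = _
    congr 1; ring
  have e01 : G a b c p 0 1 = tR a b c (X * p) := by
    change tR a b c (X ^ 0 * X ^ 1 * p) = _
    congr 1; ring
  have e10 : G a b c p 1 0 = tR a b c (X * p) := by
    change tR a b c (X ^ 1 * X ^ 0 * p) = _
    congr 1; ring
  have e02 : G a b c p 0 2 = tR a b c (X * (X * p)) := by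
    change tR a b c (X ^ 0 * X ^ 2 * p) = _
    congr 1; ring
  have e20 : G a b c p 2 0 = tR a b c (X * (X * p)) := by
    change tR a b c (X ^ 2 * X ^ 0 * p) = _
    congr 1; ring
  have e11 : G a b c p 1 1 = tR a b c (X * (X * p)) := by
    change tR a b c (X ^ 1 * X ^ 1 * p) = _
    congr 1; ring
  have e12 : G a b c p 1 2 = tR a b c (X * (X * (X * p))) := by
    change tR a b c (X ^ 1 * X ^ 2 * p) = _
    congr 1; ring
  have e21 : G a b c p 2 1 = tR a b c (X * (X * (X * p))) := by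
    change tR a b c (X ^ 2 * X ^ 1 * p) = _
    congr 1; ring
  have e22 : G a b c p 2 2 = tR a b c (X * (X * (X * (X * p)))) := by
    change tR a b c (X ^ 2 * X ^ 2 * p) = _
    congr 1; ring
  rw [Matrix.det_fin_three, e00, e01, e02, e10, e11, e12, e20, e21, e22, t0, t1, t2, t3, t4]
  unfold nu
  ring

theorem exists_adj [Nontrivial R] {p : R[X]} {r0 r1 r2 : R}
    (h : cub a b c ∣ p - (C r2 * X ^ 2 + C r1 * X + C r0)) :
    ∃ p' : R[X], cub a b c ∣ p * p' - C (nu a b c r0 r1 r2) := by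
  obtain ⟨d, hd⟩ := h
  have h1 : p = cub a b c * d + (C r2 * X ^ 2 + C r1 * X + C r0) := by linear_combination hd
  set A0 : R := (r0 - b * r2) * (r0 - b * r2 - a * (r1 - a * r2)) -
      (-c * r2 - b * (r1 - a * r2)) * (r1 - a * r2) with hA0
  set A1 : R := -(r1 * (r0 - b * r2 - a * (r1 - a * r2)) -
      (-c * r2 - b * (r1 - a * r2)) * r2) with hA1
  set A2 : R := r1 * (r1 - a * r2) - (r0 - b * r2) * r2 with hA2
  refine ⟨C A2 * X ^ 2 + C A1 * X + C A0, d * (C A2 * X ^ 2 + C A1 * X + C A0) +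
    (C (r2 * A2) * X + C (r1 * A2 + r2 * A1 - a * (r2 * A2))), ?_⟩
  rw [h1]
  have h2 : nu a b c r0 r1 r2 = r0 * A0 + (-c * r2) * A1 + (-c * (r1 - a * r2)) * A2 := by
    rw [hA0, hA1, hA2]
    unfold nu
    ring
  have h3 : (r1 * A0 + (r0 - b * r2) * A1 + (-c * r2 - b * (r1 - a * r2)) * A2 : R) = 0 := by
    rw [hA0, hA1, hA2]
    ring
  have h4 : (r2 * A0 + (r1 - a * r2) * A1 + (r0 - b * r2 - a * (r1 - a * r2)) * A2 : R) = 0 := by
    rw [hA0, hA1, hA2]
    ring
  rw [h2]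
  have h5 := congrArg (C : R → R[X]) h3
  have h6 := congrArg (C : R → R[X]) h4
  simp only [map_add, map_mul, map_sub, map_neg, map_zero] at h5 h6 ⊢
  unfold cub
  linear_combination X * h5 + X ^ 2 * h6

end General

section Main

variable {F : Type} [Field F]

theorem tau_lf (f : F[X] × F[X] × F[X]) (p : F[X][X]) :
    tau (kf f).1 (kf f).2.1 (kf f).2.2 (lf p) = rf (tR f.1 f.2.1 f.2.2 p) := by
  unfold tau tR
  have h1 : cub (kf f).1 (kf f).2.1 (kf f).2.2 = lf (cub f.1 f.2.1 f.2.2) := by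
    unfold cub kf lf
    simp
  rw [h1]
  unfold lf rf
  rw [← map_modByMonic _ (cub_monic _ _ _), coeff_map]

theorem g0_lf (f : F[X] × F[X] × F[X]) (p : F[X][X]) :
    g0 f (lf p) = (G f.1 f.2.1 f.2.2 p).map (algebraMap F[X] (RatFunc F)) := by
  ext i j
  change tau (kf f).1 (kf f).2.1 (kf f).2.2 (X ^ (i : ℕ) * X ^ (j : ℕ) * lf p) = _
  have h1 : (X ^ (i : ℕ) * X ^ (j : ℕ) * lf p : (RatFunc F)[X]) =
      lf (X ^ (i : ℕ) * X ^ (j : ℕ) * p) := by
    unfold lf
    simp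
  rw [h1, tau_lf]
  rfl

theorem g1_lf (f : F[X] × F[X] × F[X]) (p : F[X][X]) (i j : Fin 3) :
    g1 f (lf p) i j = rf (tR f.1 f.2.1 f.2.2 (X * (X ^ (i : ℕ) * X ^ (j : ℕ) * p))) := by
  change tau (kf f).1 (kf f).2.1 (kf f).2.2 (X * (X ^ (i : ℕ) * X ^ (j : ℕ) * lf p)) = _
  have h1 : (X * (X ^ (i : ℕ) * X ^ (j : ℕ) * lf p) : (RatFunc F)[X]) =
      lf (X * (X ^ (i : ℕ) * X ^ (j : ℕ) * p)) := by
    unfold lf
    simp
  rw [h1, tau_lf]

theorem rf_neg (x : F[X]) : rf (-x) = -rf x := map_neg (algebraMap F[X] (RatFunc F)) x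

theorem rf_inj {x y : F[X]} (h : rf x = rf y) : x = y :=
  IsFractionRing.injective F[X] (RatFunc F) h

end Main

end NUN

open NUN in
theorem nun_thm (hNGH : NGHStmt) : NUNStmt := by
  intro F _ f p
  refine ⟨fun i j => ⟨G f.1 f.2.1 f.2.2 p i j, _, ?_, g1_lf f p i j⟩, ?_⟩
  · rw [g0_lf]
    rfl
  have hdet : ∀ q : F[X][X], (g0 f (lf q)).det = rf (G f.1 f.2.1 f.2.2 q).det := by
    intro q
    rw [g0_lf, ← RingHom.mapMatrix_apply, ← RingHom.map_det]
  have hnorm : ∀ (q : F[X][X]) (r0 r1 r2 : F[X]),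
      cub f.1 f.2.1 f.2.2 ∣ q - (C r2 * X ^ 2 + C r1 * X + C r0) →
      Algebra.norm (RatFunc F) (AdjoinRoot.mk (cubK f) (lf q)) =
        rf (nu f.1 f.2.1 f.2.2 r0 r1 r2) := by
    intro q r0 r1 r2 hq
    have h1 := (hNGH (RatFunc F) (kf f).1 (kf f).2.1 (kf f).2.2 (lf q)).2.1
    have h2 := hdet q
    rw [det_G hq] at h2
    rw [show (gr0 (kf f).1 (kf f).2.1 (kf f).2.2 (lf q)) = g0 f (lf q) from rfl, h2] at h1
    have h3 : Algebra.norm (RatFunc F) (AdjoinRoot.mk
      (cub (kf f).1 (kf f).2.1 (kf f).2.2) (lf q)) = rf (nu f.1 f.2.1 f.2.2 r0 r1 r2) := by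
      rw [rf_neg] at h1
      linear_combination h1
    exact h3
  obtain ⟨r0, r1, r2, hr⟩ := exists_rep f.1 f.2.1 f.2.2 p
  refine ⟨nu f.1 f.2.1 f.2.2 r0 r1 r2, hnorm p _ _ _ hr, ?_, ?_⟩
  · rw [hdet, det_G hr, rf_neg]
  intro P hP
  constructor
  · rintro ⟨p', r, hpr⟩ hdvd
    obtain ⟨s0, s1, s2, hs⟩ := exists_rep f.1 f.2.1 f.2.2 p'
    obtain ⟨q0, q1, q2, hq⟩ := exists_rep f.1 f.2.1 f.2.2 r
    have h1 : cub f.1 f.2.1 f.2.2 ∣ (1 + C P * r) -
        (C (P * q2) * X ^ 2 + C (P * q1) * X + C (1 + P * q0)) := by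
      obtain ⟨d, hd⟩ := hq
      refine ⟨C P * d, ?_⟩
      simp only [map_add, map_mul, map_one]
      linear_combination C P * hd
    have h2 : AdjoinRoot.mk (cubK f) (lf p) * AdjoinRoot.mk (cubK f) (lf p') =
        AdjoinRoot.mk (cubK f) (lf (1 + C P * r)) := by
      rw [← map_mul, ← sub_eq_zero, ← map_sub, AdjoinRoot.mk_eq_zero]
      obtain ⟨d, hd⟩ := hpr
      refine ⟨lf d, ?_⟩
      have h3 := congrArg lf hd
      have h4 : lf (cubP f) = cubK f := by
        unfold lf cubP cubK cub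
        simp
      unfold lf at h3 h4 ⊢
      rw [Polynomial.map_mul, h4] at h3
      rw [← h3]
      simp only [Polynomial.map_sub, Polynomial.map_mul, Polynomial.map_add,
        Polynomial.map_one, Polynomial.map_C]
      ring
    have h3 := congrArg (Algebra.norm (RatFunc F)) h2
    rw [map_mul, hnorm p _ _ _ hr, hnorm p' _ _ _ hs, hnorm _ _ _ _ h1, ← map_mul] at h3
    have h4 := rf_inj h3
    have h5 : P ∣ nu f.1 f.2.1 f.2.2 (1 + P * q0) (P * q1) (P * q2) - 1 := by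
      rw [← Ideal.mem_span_singleton, ← Ideal.Quotient.eq_zero_iff_mem]
      have h6 : Ideal.Quotient.mk (Ideal.span {P}) P = 0 :=
        Ideal.Quotient.eq_zero_iff_mem.2 (Ideal.mem_span_singleton_self P)
      unfold nu
      simp only [map_add, map_sub, map_mul, map_neg, map_one, h6]
      ring
    rw [← h4] at h5
    have h6 : P ∣ 1 := by
      have h7 : P ∣ nu f.1 f.2.1 f.2.2 r0 r1 r2 * nu f.1 f.2.1 f.2.2 s0 s1 s2 :=
        hdvd.mul_right _
      have h8 := dvd_sub h7 h5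
      rwa [sub_sub_cancel] at h8
    exact hP.not_isUnit (isUnit_of_dvd_one h6)
  · intro hnd
    obtain ⟨q, hq⟩ := exists_adj hr
    have hcop : IsCoprime P (nu f.1 f.2.1 f.2.2 r0 r1 r2) := hP.coprime_iff_not_dvd.2 hnd
    obtain ⟨u, v, huv⟩ := hcop
    refine ⟨C v * q, -C u, ?_⟩
    obtain ⟨d, hd⟩ := hq
    refine ⟨C v * d, ?_⟩
    have h1 := congrArg (C : F[X] → F[X][X]) huv
    simp only [map_add, map_mul, map_one] at h1
    unfold cubP
    linear_combination C v * hd + h1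

end Pool.RZ
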