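import Pool.Agent.H77.RZ.Stmts
import Pool.Agent.H5.AVS.GLB
import Pool.Agent.H17.AVS.KYS

/-!
# RC1: gluing lattices at all finite places, anisotropic at one place
-/

set_option autoImplicit false

namespace Pool.RZ

open Polynomial Matrix Pool.AVR Pool.AVS Pool.AVS.GLB

namespace RC1

section Gen

variable {L : Type} [Field L] (R : Subring L) (π : L)

/-- The determinant of a matrix of type `OA`. -/
theorem unit_det (hπ : π ∈ R) (hπ0 : π ≠ 0) (hπ1 : 1 / π ∉ R)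
    (hu : ∀ x ∈ R, x / π ∉ R → x ≠ 0 ∧ x⁻¹ ∈ R)
    (H : Matrix (Fin 3) (Fin 3) L) (hs : Hᵀ = H) (h0 : UI (R : Set L) (H 0 0))
    (hij : ∀ i j, ¬ (i = 0 ∧ j = 0) → H i j / π ∈ R)
    (han : ∀ x y : L, x ∈ R → y ∈ R →
      (H 1 1 * x ^ 2 + 2 * H 1 2 * (x * y) + H 2 2 * y ^ 2) / π ^ 2 ∈ R → x / π ∈ R ∧ y / π ∈ R) :
    UI (R : Set L) (H.det / π ^ 2) := by
  have s10 : H 1 0 = H 0 1 := congrFun (congrFun hs 0) 1
  have s20 : H 2 0 = H 0 2 := congrFun (congrFun hs 0) 2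
  have s21 : H 2 1 = H 1 2 := congrFun (congrFun hs 1) 2
  obtain ⟨n1, hn1⟩ : ∃ n, n = H 0 1 / π := ⟨_, rfl⟩
  obtain ⟨n2, hn2⟩ : ∃ n, n = H 0 2 / π := ⟨_, rfl⟩
  obtain ⟨m11, hm11⟩ : ∃ n, n = H 1 1 / π := ⟨_, rfl⟩
  obtain ⟨m12, hm12⟩ : ∃ n, n = H 1 2 / π := ⟨_, rfl⟩
  obtain ⟨m22, hm22⟩ : ∃ n, n = H 2 2 / π := ⟨_, rfl⟩
  have rn1 : n1 ∈ R := by rw [hn1]; exact hij 0 1 (by decide)
  have rn2 : n2 ∈ R := by rw [hn2]; exact hij 0 2 (by decide)
  have rm11 : m11 ∈ R := by rw [hm11]; exact hij 1 1 (by decide)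
  have rm12 : m12 ∈ R := by rw [hm12]; exact hij 1 2 (by decide)
  have rm22 : m22 ∈ R := by rw [hm22]; exact hij 2 2 (by decide)
  have e01 : H 0 1 = π * n1 := by rw [hn1]; field_simp
  have e02 : H 0 2 = π * n2 := by rw [hn2]; field_simp
  have e11 : H 1 1 = π * m11 := by rw [hm11]; field_simp
  have e12 : H 1 2 = π * m12 := by rw [hm12]; field_simp
  have e22 : H 2 2 = π * m22 := by rw [hm22]; field_simp
  obtain ⟨r0, r1, r2⟩ := h0
  have r1' : H 0 0 ∈ R := r1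
  have r2' : (H 0 0)⁻¹ ∈ R := r2
  have key : ∀ x y : L, (H 1 1 * x ^ 2 + 2 * H 1 2 * (x * y) + H 2 2 * y ^ 2) / π ^ 2 =
      (m11 * x ^ 2 + 2 * m12 * (x * y) + m22 * y ^ 2) / π := by
    intro x y
    rw [e11, e12, e22]
    field_simp
  have hD : ¬ (m11 * m22 - m12 ^ 2) / π ∈ R := by
    intro hD
    have a1 := han m22 (-m12) rm22 (R.neg_mem rm12) (by
      rw [key]
      have : (m11 * m22 ^ 2 + 2 * m12 * (m22 * -m12) + m22 * (-m12) ^ 2) / π =
          m22 * ((m11 * m22 - m12 ^ 2) / π) := by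
        field_simp
        ring
      rw [this]
      exact R.mul_mem rm22 hD)
    have a2 := han m12 (-m11) rm12 (R.neg_mem rm11) (by
      rw [key]
      have : (m11 * m12 ^ 2 + 2 * m12 * (m12 * -m11) + m22 * (-m11) ^ 2) / π =
          m11 * ((m11 * m22 - m12 ^ 2) / π) := by
        field_simp
        ring
      rw [this]
      exact R.mul_mem rm11 hD)
    have a3 := han 1 0 R.one_mem R.zero_mem (by
      rw [key]
      have : (m11 * 1 ^ 2 + 2 * m12 * (1 * 0) + m22 * 0 ^ 2) / π = -(-m11 / π) := by ring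
      rw [this]
      exact R.neg_mem a2.2)
    exact hπ1 a3.1
  have hdet : H.det / π ^ 2 = H 0 0 * (m11 * m22 - m12 ^ 2) +
      π * (-n1 ^ 2 * m22 + 2 * n1 * n2 * m12 - n2 ^ 2 * m11) := by
    rw [Matrix.det_fin_three, s10, s20, s21, e01, e02, e11, e12, e22]
    field_simp
    ring
  have hmem : H.det / π ^ 2 ∈ R := by
    rw [hdet]
    refine R.add_mem (R.mul_mem r1' (R.sub_mem (R.mul_mem rm11 rm22) (R.pow_mem rm12 2)))
      (R.mul_mem hπ ?_)
    refine R.sub_mem (R.add_mem (R.mul_mem (R.neg_mem (R.pow_mem rn1 2)) rm22) ?_)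
      (R.mul_mem (R.pow_mem rn2 2) rm11)
    refine R.mul_mem (R.mul_mem (R.mul_mem ?_ rn1) rn2) rm12
    exact ofNat_mem R 2
  have hnot : ¬ H.det / π ^ 2 / π ∈ R := by
    intro h
    apply hD
    have e : (m11 * m22 - m12 ^ 2) / π = (H 0 0)⁻¹ * (H.det / π ^ 2 / π -
        (-n1 ^ 2 * m22 + 2 * n1 * n2 * m12 - n2 ^ 2 * m11)) := by
      rw [hdet]
      field_simp
      ring
    rw [e]
    refine R.mul_mem r2' (R.sub_mem h ?_)
    refine R.sub_mem (R.add_mem (R.mul_mem (R.neg_mem (R.pow_mem rn1 2)) rm22) ?_)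
      (R.mul_mem (R.pow_mem rn2 2) rm11)
    refine R.mul_mem (R.mul_mem (R.mul_mem ?_ rn1) rn2) rm12
    exact ofNat_mem R 2
  obtain ⟨h1, h2⟩ := hu _ hmem hnot
  exact ⟨h1, hmem, h2⟩

end Gen

variable {F : Type} [Field F]

theorem inv_mem_IP {P d : F[X]} (hd : ¬ P ∣ d) : (rf d)⁻¹ ∈ IP P := by
  intro h
  have e : ((rf d)⁻¹ : RatFunc F) = algebraMap F[X] (RatFunc F) 1 /
      algebraMap F[X] (RatFunc F) d := by
    rw [map_one, one_div]
  rw [e] at h
  exact hd (h.trans (RatFunc.denom_div_dvd _ _))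

theorem unit_of_not (hPOL : POLStmt) {P : F[X]} (hP : Irreducible P) (x : RatFunc F)
    (hx : x ∈ IP P) (hx' : ¬ x / rf P ∈ IP P) : x ≠ 0 ∧ x⁻¹ ∈ IP P := by
  have hxe : x = rf x.num / rf x.denom := (RatFunc.num_div_denom x).symm
  have hP0 : rf P ≠ 0 := RatFunc.algebraMap_ne_zero hP.ne_zero
  have hn : ¬ P ∣ x.num := by
    rintro ⟨q, hq⟩
    apply hx'
    have : x / rf P = rf q * (rf x.denom)⁻¹ := by
      conv_lhs => rw [hxe, hq]
      rw [show rf (P * q) = rf P * rf q from map_mul (algebraMap F[X] (RatFunc F)) P q]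
      field_simp
    rw [this]
    exact ((hPOL F).2.1 P hP _ _ ((hPOL F).2.2.1 P q hP).1 (inv_mem_IP hx)).2.1
  constructor
  · rintro rfl
    apply hn
    rw [RatFunc.num_zero]
    exact dvd_zero P
  · have : x⁻¹ = rf x.denom * (rf x.num)⁻¹ := by
      conv_lhs => rw [hxe]
      rw [inv_div, div_eq_mul_inv]
    rw [this]
    exact ((hPOL F).2.1 P hP _ _ ((hPOL F).2.2.1 P _ hP).1 (inv_mem_IP hn)).2.1

end RC1

open RC1 in
theorem rc1_thm (hGLU : GLUStmt) (hPOL : POLStmt) : RC1Stmt := by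
  classical
  intro F _ _ h2 c G ε hGs hε hdet hEL hOA hinf
  have hpcM : (pc c).Monic := monic_X_sub_C c
  have hpcI : Irreducible (pc c) := irreducible_X_sub_C c
  have hpc0 : rf (pc c) ≠ 0 := RatFunc.algebraMap_ne_zero hpcI.ne_zero
  obtain ⟨gc, hgc0, hgc1, hgc2, hgc3⟩ := hOA
  have hdet0 : G.det ≠ 0 := by
    rw [hdet]
    exact neg_ne_zero.2 (pow_ne_zero _ hε)
  -- bad primes
  obtain ⟨S0, hS0, hS0'⟩ := KYS.exists_bad (F := F)
    [G 0 0, G 0 1, G 0 2, G 1 0, G 1 1, G 1 2, G 2 0, G 2 1, G 2 2, (G.det)⁻¹, G.det]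
  have hgood : ∀ P : F[X], P.Monic → Irreducible P → P ∉ S0 → GI (IP P) G := by
    intro P hM hI hP
    have h := hS0' P hM hI hP
    refine ⟨?_, hdet0, h _ (by simp), h _ (by simp)⟩
    intro i j
    fin_cases i <;> fin_cases j <;> exact h _ (by simp)
  have hch : ∀ P : F[X], ∃ g : Matrix (Fin 3) (Fin 3) (RatFunc F), g.det ≠ 0 ∧
      (P = pc c → g = gc) ∧ (P.Monic → Irreducible P → P ≠ pc c → GI (IP P) (gᵀ * G * g)) := by
    intro P
    by_cases hPc : P = pc c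
    · exact ⟨gc, hgc0, fun _ => rfl, fun _ _ h => absurd hPc h⟩
    · by_cases hPP : P.Monic ∧ Irreducible P
      · obtain ⟨g, hg, hg'⟩ := hEL P hPP.1 hPP.2 hPc
        exact ⟨g, hg, fun h => absurd h hPc, fun _ _ _ => hg'⟩
      · exact ⟨1, by simp, fun h => absurd h hPc, fun h1 h2 => absurd ⟨h1, h2⟩ hPP⟩
  choose gP hgP0 hgPc hgPe using hch
  set S : Finset F[X] := insert (pc c) S0 with hS
  have hSm : ∀ P ∈ S, P.Monic ∧ Irreducible P := by
    intro P hP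
    rw [hS, Finset.mem_insert] at hP
    rcases hP with rfl | hP
    · exact ⟨hpcM, hpcI⟩
    · exact hS0 P hP
  obtain ⟨g, hg0, hgS, hgn⟩ := hGLU F S hSm gP fun P _ => hgP0 P
  have hIR : ∀ (P : F[X]) (hP : Irreducible P) (x y : Matrix (Fin 3) (Fin 3) (RatFunc F)),
      GI (IP P) x → GI (IP P) y → GI (IP P) (x * y) := by
    intro P hP x y hx hy
    exact gi_mul (IR hPOL P hP) hx hy
  -- away from `pc c`
  have haway : ∀ P : F[X], P.Monic → Irreducible P → P ≠ pc c → GI (IP P) (gᵀ * G * g) := by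
    intro P hM hI hPc
    by_cases hP : P ∈ S
    · obtain ⟨κ, hκ, hgκ⟩ := hgS P hP
      have : gᵀ * G * g = κᵀ * ((gP P)ᵀ * G * gP P) * κ := by
        rw [hgκ, Matrix.transpose_mul]
        simp only [Matrix.mul_assoc]
      rw [this]
      exact hIR P hI _ _ (hIR P hI _ _ (gi_tr hκ) (hgPe P hM hI hPc)) hκ
    · have hP0 : P ∉ S0 := fun h => hP (Finset.mem_insert_of_mem h)
      exact hIR P hI _ _ (hIR P hI _ _ (gi_tr (hgn P hM hI hP)) (hgood P hM hI hP0))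
        (hgn P hM hI hP)
  -- at `pc c`
  have hpcS : pc c ∈ S := Finset.mem_insert_self _ _
  obtain ⟨κ, hκ, hgκ⟩ := hgS _ hpcS
  rw [hgPc _ rfl] at hgκ
  set H := gcᵀ * G * gc with hH
  have hHs : Hᵀ = H := by
    rw [hH]
    simp only [Matrix.transpose_mul, Matrix.transpose_transpose, hGs, Matrix.mul_assoc]
  set R := IR hPOL (pc c) hpcI with hR
  have hRc : ∀ x : RatFunc F, x ∈ R ↔ x ∈ IP (pc c) := fun x => Iff.rfl
  have hπR : rf (pc c) ∈ R := ((hPOL F).2.2.1 (pc c) (pc c) hpcI).1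
  have hπ1 : ¬ 1 / rf (pc c) ∈ R := by
    intro h
    have h1 := (((hPOL F).2.2.1 (pc c) 1 hpcI).2 1).1 (by
      rw [pow_one, map_one]
      exact h)
    rw [pow_one] at h1
    exact hpcI.not_isUnit (isUnit_of_dvd_one h1)
  have hUd := unit_det R (rf (pc c)) hπR hpc0 hπ1
    (fun x hx hx' => unit_of_not hPOL hpcI x hx hx') H hHs hgc1 hgc2 hgc3
  have hge : gᵀ * G * g = κᵀ * H * κ := by
    rw [hgκ, hH, Matrix.transpose_mul]
    simp only [Matrix.mul_assoc]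
  have hHR : MI (R : Set (RatFunc F)) H := by
    intro i j
    by_cases h : i = 0 ∧ j = 0
    · rw [h.1, h.2]
      exact hgc1.2.1
    · have h1 : H i j = H i j / rf (pc c) * rf (pc c) := by field_simp
      rw [h1]
      exact R.mul_mem (hgc2 i j h) hπR
  have hMIc : MI (IP (pc c)) (gᵀ * G * g) := by
    rw [hge]
    exact mi_mul R (mi_mul R (gi_tr hκ).1 hHR) hκ.1
  have hUIc : UI (IP (pc c)) ((gᵀ * G * g).det / rf (pc c) ^ 2) := by
    have e : (gᵀ * G * g).det / rf (pc c) ^ 2 = κ.det * (H.det / rf (pc c) ^ 2) * κ.det := by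
      rw [hge, Matrix.det_mul, Matrix.det_mul, Matrix.det_transpose]
      ring
    rw [e]
    obtain ⟨u1, u2, u3⟩ := hκ.2
    obtain ⟨v1, v2, v3⟩ := hUd
    refine ⟨mul_ne_zero (mul_ne_zero u1 v1) u1, R.mul_mem (R.mul_mem u2 v2) u2, ?_⟩
    rw [mul_inv, mul_inv]
    exact R.mul_mem (R.mul_mem u3 v3) u3
  have hpol : ∀ i j, ∃ p : F[X], (gᵀ * G * g) i j = rf p := fun i j =>
    (hPOL F).1 _ fun P hM hI => by
      by_cases hPc : P = pc c
      · rw [hPc]
        exact hMIc i j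
      · exact (haway P hM hI hPc).1 i j
  choose G₁ hG₁p using hpol
  have hG₁m : (Matrix.of G₁).map (algebraMap F[X] (RatFunc F)) = gᵀ * G * g := by
    ext i j
    rw [Matrix.map_apply, Matrix.of_apply, hG₁p]
  -- `pc c` is a unit at the other places
  have hpcU : ∀ P : F[X], P.Monic → Irreducible P → P ≠ pc c → UI (IP P) (rf (pc c)) := by
    intro P hM hI hPc
    refine ⟨hpc0, ((hPOL F).2.2.1 P (pc c) hI).1, inv_mem_IP ?_⟩
    intro hd
    rcases (hI.dvd_iff.1 (dvd_refl P)) with h | h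
    · exact hI.not_isUnit h
    · have h3 : Associated P (pc c) := hI.associated_of_dvd hpcI hd
      exact hPc (eq_of_monic_of_associated hM hpcM h3)
  obtain ⟨δ, hδ, hδe⟩ := const_of_unit hPOL ((gᵀ * G * g).det / rf (pc c) ^ 2) (by
    intro P hM hI
    by_cases hPc : P = pc c
    · rw [hPc]
      exact hUIc
    · obtain ⟨u1, u2, u3⟩ := hpcU P hM hI hPc
      obtain ⟨v1, v2, v3⟩ := (haway P hM hI hPc).2
      set R' := IR hPOL P hI with hR'
      have u2' : rf (pc c) ∈ R' := u2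
      have u3' : (rf (pc c))⁻¹ ∈ R' := u3
      have v2' : (gᵀ * G * g).det ∈ R' := v2
      have v3' : ((gᵀ * G * g).det)⁻¹ ∈ R' := v3
      refine ⟨div_ne_zero v1 (pow_ne_zero _ u1), ?_, ?_⟩
      · change _ ∈ R'
        rw [div_eq_mul_inv, ← inv_pow]
        exact R'.mul_mem v2' (R'.pow_mem u3' 2)
      · change _ ∈ R'
        rw [inv_div, div_eq_mul_inv]
        exact R'.mul_mem (R'.pow_mem u2' 2) v3')
  refine ⟨g, Matrix.of G₁, δ, hg0, hG₁m.symm, hδ, ?_⟩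
  apply RatFunc.algebraMap_injective F
  rw [RingHom.map_det, RingHom.mapMatrix_apply, hG₁m, map_mul, ← hδe, map_pow]
  field_simp

end Pool.RZ
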